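import Pool.Agent.BE01.Stmts

/-!
# BE01 module DDB (MP_be01ff_an): bounds for the derivatives of `δ ^ k P`
-/

namespace Pool.Agent.BE01.H90

open Set Filter Topology
open scoped InnerProductSpace

noncomputable section

/-- the coefficient `DP + α k a(δ) P` of `D(δ^k P) = δ^k P₁` -/
def nx {M : Type} [NormedAddCommGroup M] [NormedSpace ℝ M] (α : ℕ) (ω : ℝ) (a b : Polynomial ℝ)
    (k : ℕ) (P : ℝ → ℝ → M) : ℝ → ℝ → M :=
  fun ψ δ => DD α ω a b P ψ δ + ((α : ℝ) * k * a.eval δ) • P ψ δ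

theorem nx_mem (ply : PlyStmt) {M : Type} [NormedAddCommGroup M] [NormedSpace ℝ M] (α c : ℕ)
    (ω : ℝ) (a b : Polynomial ℝ) (k : ℕ) (P : ℝ → ℝ → M) (hP : P ∈ PP M α c) :
    nx α ω a b k P ∈ PP M α c := by
  obtain ⟨h1, h2, -, -⟩ := ply M α c ω a b P hP
  have e : nx α ω a b k P = DD α ω a b P + ((α : ℝ) * k) • (fun ψ δ => a.eval δ • P ψ δ) := by
    funext ψ δ
    simp only [nx, Pi.add_apply, Pi.smul_apply, smul_smul]
  rw [e]
  exact (PP M α c).add_mem h2 ((PP M α c).smul_mem _ h1)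

theorem DD_pow (ply : PlyStmt) {M : Type} [NormedAddCommGroup M] [NormedSpace ℝ M] (α c : ℕ)
    (ω : ℝ) (a b : Polynomial ℝ) (k : ℕ) (P : ℝ → ℝ → M) (hP : P ∈ PP M α c) :
    DD α ω a b (fun ψ δ => δ ^ k • P ψ δ) = fun ψ δ => δ ^ k • nx α ω a b k P ψ δ := by
  obtain ⟨-, -, -, h4⟩ := ply M α c ω a b P hP
  funext ψ δ
  exact h4 k ψ δ

theorem ddb (ply : PlyStmt) (eva : EvaStmt) : DdbStmt := by
  intro M _ _ α c ω a b P k hP
  have hP1 := nx_mem ply α c ω a b k P hP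
  have hP2 := nx_mem ply α c ω a b k _ hP1
  obtain ⟨C0, h0⟩ := eva M α c P hP
  obtain ⟨C1, h1⟩ := eva M α c _ hP1
  obtain ⟨C2, h2⟩ := eva M α c _ hP2
  refine ⟨C0 + C1 + C2, fun ψ δ hδ hδ1 => ?_⟩
  rw [DD_pow ply α c ω a b k P hP, DD_pow ply α c ω a b k _ hP1]
  have hk : (0 : ℝ) ≤ δ ^ k := pow_nonneg hδ k
  simp only [norm_smul, Real.norm_eq_abs, abs_of_nonneg hk]
  have g0 := mul_le_mul_of_nonneg_left (h0 ψ δ hδ hδ1).1 hk
  have g1 := mul_le_mul_of_nonneg_left (h1 ψ δ hδ hδ1).1 hk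
  have g2 := mul_le_mul_of_nonneg_left (h2 ψ δ hδ hδ1).1 hk
  nlinarith [g0, g1, g2]

end

end Pool.Agent.BE01.H90
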